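import Mathlib
import Pool.Agent.R190.KR.Main

/-!
# Project KU: kth records of symmetric unimodal parents (MP_d11fee_pr, Q2)

`k = m + 1`, `m, n ≥ 1`, `S n m x = a^n u^m - b^n v^m` (library), where `u = 1 - x`, `v = x`,
`a = A x = -log (1-x)`, `b = A (1-x) = -log x` (so `e^a = 1/u`, `e^b = 1/v`, `a ≥ b` for `x ≥ 1/2`),
`w x = v/a + u/b`, `psi n m x = (n/a - m)/u`, `psi n m (1-x) = (n/b - m)/v`, `R = G x / G (1-x)`,
`S1`, `S2` first and second derivative of `S` (library `hasDerivAt_S`, `hasDerivAt_S1`).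
All `S_…` below are independent lemma jobs; hypotheses of type `S_…` may be used.
-/

set_option autoImplicit false

namespace Pool.Agent.T9h72.KU

open MeasureTheory ProbabilityTheory Set Filter Topology Pool.Agent.R190.KR
open scoped ENNReal

/-- Law of a symmetric unimodal parent: symmetric parent (continuous distribution function, finite
positive variance, symmetric about the mean) with a density which is nondecreasing to the left of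
the mean and nonincreasing to the right of the mean. -/
structure UniParent (μ : Measure ℝ) : Prop where
  sym : SymParent μ
  dens : ∃ p : ℝ → ℝ≥0∞, Measurable p ∧ μ = volume.withDensity p ∧
    MonotoneOn p (Iio (mean μ)) ∧ AntitoneOn p (Ioi (mean μ))

/-- The values `(E_F R_n^{(k)} - μ_F) / σ_F` over all symmetric unimodal parents: `D^su(k,n)` is the
supremum of this set. -/
def stdMeansU (k n : ℕ) : Set ℝ :=
  {r | ∃ μ : Measure ℝ, UniParent μ ∧ r = (recMean k n μ - mean μ) / sd μ}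

/-- what `exists_peak` gives -/
structure Peak (n m : ℕ) (c : ℝ) : Prop where
  mem : c ∈ Ioo (1 / 2 : ℝ) 1
  pos : 0 < S n m c
  max : ∀ x ∈ Icc (1 / 2 : ℝ) 1, S n m x ≤ S n m c
  mono : StrictMonoOn (S n m) (Icc (1 / 2) c)
  anti : ∀ x y, c ≤ x → x ≤ y → y ≤ 1 → 0 < S n m y → S n m y ≤ S n m x

/-- `β` is a knot with slope `a`: `S` is convex and strictly increasing on `[1/2, β]` and the line
through `(β, S β)` with slope `a > 0` is the regression line of `S` on `[β, 1]`. -/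
structure KnotS (n m : ℕ) (β a : ℝ) : Prop where
  mem : β ∈ Ioo (1 / 2 : ℝ) 1
  conv : ConvexOn ℝ (Icc (1 / 2) β) (S n m)
  mono : StrictMonoOn (S n m) (Icc (1 / 2) β)
  pos : 0 < a
  mom0 : ∫ x in β..1, (S n m x - (S n m β + a * (x - β))) = 0
  mom1 : ∫ x in β..1, (S n m x - (S n m β + a * (x - β))) * (x - β) = 0

/-- `∫_{1/2}^β S² + ∫_β^1 (S β + a (x-β))²` -/
noncomputable def V (n m : ℕ) (β a : ℝ) : ℝ :=
  (∫ x in (1 / 2 : ℝ)..β, S n m x ^ 2) + ∫ x in β..1, (S n m β + a * (x - β)) ^ 2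

noncomputable def N0 (n m : ℕ) : ℝ := ∫ x in (1 / 2 : ℝ)..1, S n m x
noncomputable def N1 (n m : ℕ) : ℝ := ∫ x in (1 / 2 : ℝ)..1, S n m x * (x - 1 / 2)

/-- JOB CONC.  The distribution function is concave to the right of the mean.
Proof.  For `x < y < z` in `[mean, ∞)`: `F y - F x = ∫_(x,y] p ≥ p(y) (y-x)` and
`F z - F y = ∫_(y,z] p ≤ p(y) (z-y)` (take `y > mean`; `p` is nonincreasing there; `F` is finite so
`p y < ∞` for `y > mean`). -/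
def S_CONC : Prop := ∀ μ : Measure ℝ, UniParent μ → ConcaveOn ℝ (Ici (mean μ)) (cdf μ)

/-- JOB OPT (uses `S_CONC`).  The optimality inequality.  Model: `SymParent.opt_le` in R190.KR.Opt.
Proof.  If `c1 = c2` then `φ ≤ 0` on `[1/2,1]` and `(t - mean) φ(F t) ≤ 0` pointwise (odd).  Otherwise take
`t1 ≤ t2` in `[mean, ∞)` with `F t1 = c1`, `F t2 = c2` (`SymParent.exists_cdf_eq`; if `c1 = 1/2` take
`t1 = mean`) and the line `L(x) = (t1 - mean) + B (x - c1)`, `B = (t2 - t1)/(c2 - c1) ≥ 0`.  By concavity of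
`F` on `[mean, ∞)`: `t - mean ≤ L (F t)` for `t1 ≤ t ≤ t2` and `t - mean ≥ L (F t)` for
`mean ≤ t ≤ t1` and for `t ≥ t2`.  So `(t - mean) φ(F t) ≤ L(F t) φ(F t)` for `t ≥ mean`, and by
oddness the same with the odd extension for `t ≤ mean`.  Integrate (`integral_comp_cdf`):
`≤ 2 ∫_{1/2}^1 L φ = 2 (L(1/2) ∫ φ + B ∫ φ (x - 1/2)) ≤ 0` because `L(1/2) ≤ 0` (concavity at
`mean, t1, t2`; `= 0` if `c1 = 1/2`). -/
def S_OPT : Prop := ∀ μ : Measure ℝ, UniParent μ → ∀ φ : ℝ → ℝ, Measurable φ → ∀ B : ℝ,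
    (∀ x ∈ Icc (0 : ℝ) 1, |φ x| ≤ B) → (∀ x ∈ Icc (0 : ℝ) 1, φ (1 - x) = -φ x) →
    ∀ c1 c2 : ℝ, 1 / 2 ≤ c1 → c1 ≤ c2 → c2 < 1 →
    (∀ x ∈ Icc (1 / 2 : ℝ) c1, φ x ≤ 0) → (∀ x ∈ Icc c1 c2, 0 ≤ φ x) →
    (∀ x ∈ Icc c2 1, φ x ≤ 0) →
    (c1 = 1 / 2 ∨ 0 ≤ ∫ x in (1 / 2 : ℝ)..1, φ x) →
    ∫ x in (1 / 2 : ℝ)..1, φ x * (x - 1 / 2) ≤ 0 →
    ∫ t, (t - mean μ) * φ (cdf μ t) ∂μ ≤ 0

/-- the hypotheses on the quantile function `g` with derivative `d` off the point `β` -/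
structure GoodQ (g d : ℝ → ℝ) (B β : ℝ) : Prop where
  meas : Measurable g
  bdd : ∀ x ∈ Ioo (0 : ℝ) 1, |g x| ≤ B
  odd : ∀ x ∈ Ioo (0 : ℝ) 1, g (1 - x) = -g x
  cont : ContinuousOn g (Ico (1 / 2) 1)
  der : ∀ x ∈ Ioo (1 / 2 : ℝ) 1, x ≠ β → HasDerivAt g (d x) x
  dpos : ∀ x ∈ Ioo (1 / 2 : ℝ) 1, 0 < d x
  dmono : MonotoneOn d (Ioo (1 / 2) 1)

/-- JOB LAW.  The law of `g(U)` is a symmetric unimodal parent.
Proof.  `g` is strictly increasing on `[1/2,1)` (derivative positive off one point, continuous),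
`g(1/2) = 0`, hence on `(0,1)` by oddness; `symParent_map` gives the symmetric part and `mean = 0`.
Density: `p t = ofReal (1 / d x)` if `|t| = g x` with `x ∈ (1/2,1)`, `x ≠ β` (e.g. `x = cdf ν |t|`),
`p t = 0` if `|t| ≥ sup g` (values at the points `0`, `± g β` are chosen between the one sided
neighbours, e.g. through `1 / d (cdf ν |t|)` everywhere in the range: `d β` is between).  For Borel
`E ⊆ (0,∞)`: `ν E = |{x ∈ (1/2,1) : g x ∈ E}| = ∫ 1_E(g x) (1/d x) d x = ∫_E p` by the change of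
variables `lintegral_image_eq_lintegral_abs_deriv_mul` on `(1/2,1) \ {β}`; for negative `E` by
symmetry. -/
def S_LAW : Prop := ∀ (g d : ℝ → ℝ) (B β : ℝ), GoodQ g d B β →
    StrictMonoOn g (Ioo 0 1) ∧ UniParent ((volume.restrict (Ioo (0 : ℝ) 1)).map g)

/-- JOB VAL (uses `S_LAW`).  Copy of `value_map` (R190.KR.Final) for `stdMeansU`. -/
def S_VAL : Prop := ∀ (n m : ℕ), 1 ≤ m → ∀ (g d : ℝ → ℝ) (B β : ℝ), GoodQ g d B β →
    K n m / 2 * (∫ x in Ioo (0 : ℝ) 1, g x * S n m x) /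
      Real.sqrt (∫ x in Ioo (0 : ℝ) 1, g x ^ 2) ∈ stdMeansU (m + 1) n

/-- JOB G0.  With `Θ(a) = (e^a - 1 - a)/a²` increasing (power series, or derivative), `e^a = 1/u`,
`e^b = 1/v`: `Θ(a) ≥ Θ(b)` says `v b² (1 - u - u a) ≥ u a² (1 - v - v b)`, and the difference of the two
sides below is exactly `v b²·u·(v - u a) - u a²·v·(u - v b)` divided by … (check: with `α = u a`,
`β = v b`: `α β (v α - u β) - u v (α² - β²) = u β² (v - α) - v α² (u - β)`). Strict for `x > 1/2`. -/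
def S_G0 : Prop := ∀ x ∈ Ioo (1 / 2 : ℝ) 1,
    ((1 - x) * A x) ^ 2 - (x * A (1 - x)) ^ 2 <
      (1 - x) * x * A x * A (1 - x) * (A x - A (1 - x))

/-- JOB I1 (uses `S_G0`).  `Λ(x) = log(a/b) - 1 + b/a - u (a-b)²/(ab)` vanishes at `1/2` and
`Λ'(x) = (a-b) · (u v a b (a-b) - (u²a² - v²b²)) / (a² b² u v) ≥ 0` on `(1/2,1)`
(`a' = 1/u`, `b' = -1/v`). -/
def S_I1 : Prop := ∀ x ∈ Ioo (1 / 2 : ℝ) 1,
    (1 - x) * (A x - A (1 - x)) ^ 2 / (A x * A (1 - x)) ≤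
      Real.log (A x / A (1 - x)) - 1 + A (1 - x) / A x

/-- JOB LC (uses `S_G0`).  Here `psi² + psi' = q(a)/u²` with `q(a) = ρ² + ρ - n/a²`, `ρ = n/a - m`.
Put `p = v/a`, `r = u/b` (so `w = p + r`), `κ = n w - m ≥ 0`, `d = r - p`, `h = v - u > 0`,
`g0 = r v - p u - r² + p²` (`a² b² g0 = u v a b (a-b) - (u²a² - v²b²) > 0` by `S_G0`).  Then (algebra)
`u² q(b) - v² q(a) = n g0 + κ (n (d + w h) - h - κ h) = n g0 + κ (n d + (m-1) h)`, and `d ≥ 0`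
(`w` is below `u/b + u/b`…: `v/a ≤ u/b`, i.e. `v b ≤ u a`), `m ≥ 1`, `n > 0`. -/
def S_LC : Prop := ∀ n m : ℕ, 1 ≤ m → ∀ x ∈ Ioo (1 / 2 : ℝ) 1, (m : ℝ) ≤ n * w x →
    psi n m x ^ 2 + psi' n m x < psi n m (1 - x) ^ 2 + psi' n m (1 - x)

/-- JOB LP (uses `S_G0`, `S_I1`).  Let `z = m - n/a > 0`, `c2 = a - b > 0` (`e^c2 = v/u`),
`L0 = log(a/b) - 1 + b/a`, `R = G x/G(1-x) ≥ 1`; `log R = n L0 - z c2 =: ν ≥ 0`.  `q(a) ≥ 0` says
`n ≤ a² z (z-1)`, so `z > 1`, and with `ν ≥ 0`: `a² (z-1) L0 ≥ c2`.  Claim `R z v ≥ u (n/b - m)`, i.e.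
(multiply by `1/u`) `z e^(ν + c2) ≥ n c2/(a b) - z`, `n = (ν + z c2)/L0`.  As `e^(ν+c2) ≥ e^c2 (1+ν)` it
suffices: (1) `z (1 + e^c2) ≥ z c2²/(a b L0)`: this is `S_I1` (`1 + e^c2 = 1/u`);
(2) `z e^c2 ≥ c2/(a b L0)`: since `z ≥ 1 + c2/(a² L0)` it suffices
`(v/u)(a² L0 + (a-b)) ≥ a (a-b)/b`; by `S_I1` the left side is `≥ (v/u)(a-b)(u a (a-b)/b + 1)`, so it
suffices `u v a (a-b) + v b ≥ u a`, which follows from `S_G0` divided by `b` and `u a + v b ≥ b`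
(trivial if `u a ≤ v b`). -/
def S_LP : Prop := ∀ n m : ℕ, 1 ≤ n → ∀ x ∈ Ioo (1 / 2 : ℝ) 1, psi n m x < 0 →
    0 ≤ psi n m x ^ 2 + psi' n m x → 0 ≤ S n m x → S1 n m x ≤ 0

/-- JOB ZA.  Let `P(a) = m(m-1)a² - n(2m-1)a + n(n-1)`, so `G x (psi²+psi')(x) = a^(n-2) u^(m-2) P(a)`.
`psi y > 0` and `psi² + psi' > 0` at `y` say that `a(y)` is below the smaller root of `P` (so `n ≥ 2`),
hence `P > 0`, `P' < 0` on `(0, a(y)]` and `P'/P` is decreasing there (`P'' P - P'^2 = 2m(m-1)P - P'^2 < 0`).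
`T(x) = log (G x (psi²+psi')(x)) - log (G(1-x) (psi²+psi')(1-x))` has `T(1/2) = 0` and
`u v T'(x) = (n-2) w x - (m-2) + v P'(a)/P(a) + u P'(b)/P(b)` which is decreasing in `x ∈ (1/2, y]`
(`w_anti`; with `f = -P'/P > 0` increasing: `(v f(a) + u f(b))' = f(a) - f(b) + v f'(a)/u - u f'(b)/v ≥ 0`
needs also `f'(a) ≥ f'(b)`: or write `f(a) = 1/(λ1-a) + 1/(λ2-a)` with the roots `λ1 ≤ λ2`; for `m = 1`
`f(a) = 1/(n-1-a)`).  So `T` is first increasing then decreasing on `[1/2,y]`; `T(y) ≥ 0` gives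
`T > 0` on `(1/2,y)`. -/
def S_ZA : Prop := ∀ n m : ℕ, 1 ≤ n → 1 ≤ m → ∀ x y : ℝ, 1 / 2 < x → x < y → y < 1 →
    0 < psi n m y → 0 < psi n m y ^ 2 + psi' n m y → 0 ≤ S2 n m y → 0 < S2 n m x

/-- JOB SHAPE (uses `S_LC`, `S_LP`, `S_ZA`).  On `(1/2, c)`: `S > 0` (so `R > 1`) and `S1 > 0` (`S1 ≥ 0` by
monotonicity; a zero of `S1` would be a strict local maximum by `S2_neg`).  From `S1 ≥ 0`, `R > 1`:
`n w x ≥ m` (if `psi x < 0` then `0 ≤ R psi x + psi (1-x) ≤ psi x + psi (1-x) = (n w - m)/(u v)`), so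
`S_LC` applies.  If `(psi²+psi')(x) ≤ 0` then `S2 x/G(1-x) = R (psi²+psi')(x) - (psi²+psi')(1-x) < 0`.  If
`(psi²+psi')(x) > 0` and `psi x ≤ 0`: impossible by `S_LP` (`psi x = 0` gives a negative value).
Otherwise `S_ZA` applies.  So if `S2 y ≥ 0` for some `y ∈ (1/2,c)` then `S2 > 0` on `(1/2,y)`; take
`e = sup` of these `y` (or `1/2`). -/
def S_SHAPE : Prop := ∀ n m : ℕ, 1 ≤ n → 1 ≤ m → ∀ c : ℝ, Peak n m c →
    ∃ e ∈ Icc (1 / 2 : ℝ) c, ConvexOn ℝ (Icc (1 / 2) e) (S n m) ∧ ConcaveOn ℝ (Icc e c) (S n m)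

/-- JOB PAT (uses `S_SHAPE`).  Sign pattern of `r = S - ℓ`, `ℓ(x) = S β + a (x - β)`, `β ∈ [1/2, c]`,
`a > 0`.  On `[c,1]`: `S` is nonincreasing as long as it is positive and afterwards `≤ 0 < ℓ`, so
`{r > 0}` is an initial part of `[c,1]` (and `r 1 < 0`).  On `[β, max β e]` `r` is convex with
`r β = 0`: first `≤ 0` then `≥ 0`.  On `[max β e, c]` `r` is concave. -/
def S_PAT : Prop := ∀ n m : ℕ, 1 ≤ n → 1 ≤ m → ∀ c : ℝ, Peak n m c → ∀ β ∈ Icc (1 / 2 : ℝ) c,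
    ∀ a : ℝ, 0 < a → ∃ c1 c2 : ℝ, β ≤ c1 ∧ c1 ≤ c2 ∧ c2 < 1 ∧
      (∀ x ∈ Icc β c1, S n m x ≤ S n m β + a * (x - β)) ∧
      (∀ x ∈ Icc c1 c2, S n m β + a * (x - β) ≤ S n m x) ∧
      (∀ x ∈ Icc c2 1, S n m x ≤ S n m β + a * (x - β))

/-- JOB PM.  `(c - x) r x ≥ 0` on `[β,1]`, and `> 0` near `1`. -/
def S_PM : Prop := ∀ (r : ℝ → ℝ) (β c : ℝ), β ≤ c → c < 1 → ContinuousOn r (Icc β 1) →
    (∀ x ∈ Icc β c, 0 ≤ r x) → (∀ x ∈ Icc c 1, r x ≤ 0) → r 1 < 0 →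
    ∫ x in β..1, r x * (x - β) = 0 → 0 < ∫ x in β..1, r x

/-- JOB EX (uses `S_SHAPE`, `S_PM`).  Existence of a knot.  `Peak n m c` from `exists_peak` (`N1 > 0`
gives a positive value), `e` from `S_SHAPE`.  For `β ∈ [1/2,e]` put
`al(β) = 3/(1-β)³ ∫_β^1 (S - S β)(x - β)` and `J(β) = ∫_β^1 (S - S β) - al(β) (1-β)²/2` (continuous;
`al(1/2) = 24 N1 > 0`, `J(1/2) = N0 - 3 N1 < 0`); then `∫_β^1 (S - S β - al (x-β))(x-β) = 0`.
(i) `al(β0) = 0` implies `J(β0) > 0` (`S_PM` with `r = S - S β0`, which is `≥ 0` then `≤ 0`; at `β0 = 1/2`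
`al > 0`).  (ii) If `J < 0` on `[1/2,e]` then `al > 0` on it by (i) and IVT, and at `β = e` the function
`r = S - ℓ` is concave on `[e,c]`, `r e = 0`, and as in PAT on `[c,1]`, so it is `≥ 0` then `≤ 0`
(not `≤ 0` everywhere as the moment vanishes and `r 1 < 0`) and `S_PM` gives `J(e) > 0`.  So `J` has a
first zero `β ∈ (1/2, e]`, with `al(β) > 0` by (i) and IVT.  Convexity and strict monotonicity on
`[1/2,β]` from `S_SHAPE`, `Peak`. -/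
def S_EX : Prop := ∀ n m : ℕ, 1 ≤ n → 1 ≤ m → 0 < N1 n m → N0 n m < 3 * N1 n m →
    ∃ β a : ℝ, KnotS n m β a

/-- JOB KUP (uses `S_OPT`, `S_PAT`).  Upper bound at a knot.  `β ≤ c` by `mono` and `Peak.max`.
`g* x = S x` on `[1/2,β]`, `= S β + a (x-β)` on `[β,1]`, extended oddly; `φ = S - g*`; `S_OPT` with
the `c1, c2` of `S_PAT` and both moments zero; then `SymParent.cs` for `g*`
(`∫_0^1 g*² = 2 V`). -/
def S_KUP : Prop := ∀ n m : ℕ, 1 ≤ n → 1 ≤ m → ∀ β a : ℝ, KnotS n m β a → ∀ μ : Measure ℝ,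
    UniParent μ →
    ∫ t, (t - mean μ) * S n m (cdf μ t) ∂μ ≤ sd μ * Real.sqrt (2 * V n m β a)

/-- JOB KLO (uses `S_VAL`, `S_PAT`, `S_PM`).  The knot law attains the bound: `g*` of KUP with
`d = S1` on `(1/2,β)`, `= a` on `[β,1)`.  `S1` is nondecreasing on `(1/2,β]` by convexity and `> 0`;
`S1 β ≤ a`: otherwise `r > 0` just after `β`, so `r ≥ 0` on `[β,c2]` and `≤ 0` on `[c2,1]` by `S_PAT`,
and `mom1` with `S_PM` contradicts `mom0`.  `∫_0^1 g* S = ∫_0^1 g*² = 2 V` by `mom0`, `mom1`. -/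
def S_KLO : Prop := ∀ n m : ℕ, 1 ≤ n → 1 ≤ m → ∀ β a : ℝ, KnotS n m β a →
    K n m / 2 * Real.sqrt (2 * V n m β a) ∈ stdMeansU (m + 1) n

/-- JOB UNIF (uses `S_OPT`, `S_PAT`, `S_VAL`).  Uniform law.  `φ = S - 24 N1 (x - 1/2)`, odd, pattern from
`S_PAT` with `β = 1/2`, `a = 24 N1` (`S (1/2) = 0`; `Peak` from `exists_peak`);
`∫_{1/2}^1 φ (x-1/2) = 0`, `∫_{1/2}^1 φ = N0 - 3 N1 ≥ 0`.  Then `SymParent.cs` for `24 N1 (x - 1/2)`.
Attained by `g x = x - 1/2`. -/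
def S_UNIF : Prop := ∀ n m : ℕ, 1 ≤ n → 1 ≤ m → 0 < N1 n m → 3 * N1 n m ≤ N0 n m →
    IsLUB (stdMeansU (m + 1) n) (K n m * N1 n m * Real.sqrt 12)

/-- JOB ZERO (uses `S_OPT`, `S_VAL`).  `S ≥ 0` on `[1/2,c]`, `≤ 0` on `[c,1]` for some `c < 1` (positivity
is an initial property, `S_nonneg_initial`, as in `pattern_zero`; if `S ≥ 0` on all of `[1/2,1)` then
`N1 > 0`), so `S_OPT` with `c1 = 1/2`.  Lower bound as in `isLUB_one` with
`g x = (2x-1)^(2N+1)` (convex on `[1/2,1]`, so `GoodQ`). -/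
def S_ZERO : Prop := ∀ n m : ℕ, 1 ≤ n → 1 ≤ m → N1 n m ≤ 0 → IsLUB (stdMeansU (m + 1) n) 0

/-- JOB M1.  `K N1 = ∫_0^1 (x - 1/2) f = E R - 1/2` for uniform parents, `f = K G` the density:
`∫_0^1 (1-x) K G n m = ((m+1)/(m+2))^(n+1)` since `(1-x) G n m = G n (m+1)` and
`∫_0^1 K n (m+1) G n (m+1) = 1` (`integral_G`, `T_zero`, `T_one`). -/
def S_M1 : Prop := ∀ n m : ℕ, 1 ≤ m →
    K n m * N1 n m = 1 / 2 - (((m : ℝ) + 1) / (m + 2)) ^ (n + 1)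

/-- `IsKnot k n β a` in terms of `s = sfun k n` -/
structure IsKnot (k n : ℕ) (β a : ℝ) : Prop where
  mem : 1 / 2 < β ∧ β < 1
  conv : ConvexOn ℝ (Icc (1 / 2) β) (sfun k n)
  mono : StrictMonoOn (sfun k n) (Icc (1 / 2) β)
  pos : 0 < a
  mom0 : ∫ x in β..1, (sfun k n x - (sfun k n β + a * (x - β))) = 0
  mom1 : ∫ x in β..1, (sfun k n x - (sfun k n β + a * (x - β))) * (x - β) = 0

/-- JOB FIN (uses `S_ZERO`, `S_UNIF`, `S_EX`, `S_KUP`, `S_KLO`, `S_M1`): the main theorem for `k ≥ 2`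
(`K_mul_integral_half`, `sfun_eq`, `value_eq` in R190.KR.Main as models). -/
def S_FIN : Prop := ∀ k n : ℕ, 2 ≤ k → 1 ≤ n →
    (1 ≤ 2 * ((k : ℝ) / (k + 1)) ^ (n + 1) → IsLUB (stdMeansU k n) 0) ∧
    (2 * ((k : ℝ) / (k + 1)) ^ (n + 1) < 1 →
      (3 * (1 / 2 - ((k : ℝ) / (k + 1)) ^ (n + 1)) ≤
          (∑ j ∈ Finset.range (n + 1), (k * Real.log 2) ^ j / j.factorial) / 2 ^ (k - 1) - 1 →
        IsLUB (stdMeansU k n) (Real.sqrt 3 * (1 - 2 * ((k : ℝ) / (k + 1)) ^ (n + 1)))) ∧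
      ((∑ j ∈ Finset.range (n + 1), (k * Real.log 2) ^ j / j.factorial) / 2 ^ (k - 1) - 1 <
          3 * (1 / 2 - ((k : ℝ) / (k + 1)) ^ (n + 1)) →
        (∃ β a : ℝ, IsKnot k n β a) ∧ ∀ β a : ℝ, IsKnot k n β a →
          IsLUB (stdMeansU k n) (Real.sqrt (1 / 2 * ((∫ x in (1 / 2 : ℝ)..β, sfun k n x ^ 2) +
            ∫ x in β..1, (sfun k n β + a * (x - β)) ^ 2)))))

/-- JOB KONE.  `k = 1`: the supremum is the same as for all symmetric parents.  Upper bound: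
Cauchy-Schwarz (`s` is square integrable on `(0,1)`, unbounded).  Attained by the law of `s(U)`:
`s` is odd and convex on `[1/2,1)`: `s'' = K (h(a) - h(b))`, `h(a) = e^(2a) (n(n-1) a^(n-2) + n a^(n-1))`
increasing; `s' > 0`.  (Needs the unbounded versions of `S_LAW`, `symParent_map`.) -/
def S_KONE : Prop := ∀ n : ℕ, 1 ≤ n →
    IntervalIntegrable (fun x => sfun 1 n x ^ 2) volume (1 / 2) 1 ∧
    IsLUB (stdMeansU 1 n) (Real.sqrt (1 / 2 * ∫ x in (1 / 2 : ℝ)..1, sfun 1 n x ^ 2))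

end Pool.Agent.T9h72.KU
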