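import Mathlib
import Pool.Agent.T9h72.KU.Spec

/-!
# Project KU, part 2: the knot is unique
-/

set_option autoImplicit false

namespace Pool.Agent.T9h72.KU

open MeasureTheory ProbabilityTheory Set Filter Topology Pool.Agent.R190.KR
open scoped ENNReal

/-- JOB SHAPE2 (uses `S_LC`, `S_LP`, `S_ZA`): the pointwise statement inside the proof of `S_SHAPE`. -/
def S_SHAPE2 : Prop := ∀ n m : ℕ, 1 ≤ n → 1 ≤ m → ∀ c : ℝ, Peak n m c →
    ∀ x y : ℝ, 1 / 2 < x → x < y → y < c → 0 ≤ S2 n m y → 0 < S2 n m x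

/-- JOB CONVG (uses `S_PAT`, `S_PM` through `slope` of helper12).  The function which is `S` on
`[1/2, β]` and the line on `[β, 1]` is convex on `[1/2, 1]`. -/
def S_CONVG : Prop := ∀ n m : ℕ, 1 ≤ n → 1 ≤ m → ∀ β a : ℝ, KnotS n m β a →
    ConvexOn ℝ (Icc (1 / 2) 1) (fun x => if x ≤ β then S n m x else S n m β + a * (x - β))

/-- JOB REG.  A continuous convex function on `[p,1]` which vanishes at `p` and is orthogonal to `1` and
`x - p` is zero.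
Proof.  Put `z = sup {x ∈ [p,1] : f x ≤ 0}` (closed set, contains `p`).  By convexity `f ≤ 0` on `[p,z]`
(`f p = 0`, `f z ≤ 0`) and `f > 0` on `(z,1]`.  So `f (x - z) ≥ 0` on `[p,1]` and
`∫ f (x - z) = ∫ f (x - p) - (z - p) ∫ f = 0`; hence `f (x-z) = 0` on `[p,1]` (continuous), `f = 0` for
`x ≠ z`, and at `z` by continuity. -/
def S_REG : Prop := ∀ (f : ℝ → ℝ) (p : ℝ), p < 1 → ContinuousOn f (Icc p 1) →
    ConvexOn ℝ (Icc p 1) f → f p = 0 → ∫ x in p..1, f x = 0 → ∫ x in p..1, f x * (x - p) = 0 →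
    ∀ x ∈ Icc p 1, f x = 0

/-- JOB UNIQ (uses `S_SHAPE2`, `S_CONVG`, `S_REG`).  Let `β < β'` be both knots (slopes `a`, `a'`), `g'` the function of
`β'` and `ℓ(x) = S β + a (x - β)` on `[β,1]`.  On `[β,1]`: `∫ (S - ℓ) = ∫ (S - ℓ)(x-β) = 0` and
`∫_β^1 (S - g') = ∫_{β'}^1 (S - g') = 0`, `∫_β^1 (S - g')(x - β) = ∫_{β'}^1 (S-g')(x - β') + (β'-β) 0 = 0`.
So `f = g' - ℓ` satisfies `S_REG` with `p = β` (`g' β = S β = ℓ β`, as `β ≤ β'`); hence `S = ℓ` on `[β,β']`,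
so `S2 = 0` on `(β,β')`.  But `β' ≤ c` (`exists_peak_of_knot` of helper12) and `S_SHAPE2` gives `S2 > 0`
somewhere there.  Contradiction, so `β = β'` (symmetry), and `mom0` gives `a = a'`:
`∫_β^1 (S - S β) = a (1-β)²/2`. -/
def S_UNIQ : Prop := ∀ n m : ℕ, 1 ≤ n → 1 ≤ m → ∀ β a β' a' : ℝ, KnotS n m β a → KnotS n m β' a' →
    β = β' ∧ a = a'

end Pool.Agent.T9h72.KU
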