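import Mathlib
import Pool.Agent.T9h72.KU.Spec

set_option autoImplicit false

namespace Pool.Agent.T9h72.KU

open MeasureTheory ProbabilityTheory Set Filter Topology Pool.Agent.R190.KR
open scoped ENNReal

theorem sfun_mul (n m : ℕ) : sfun (m + 1) n = fun x => K n m * S n m x := by
  funext x; exact sfun_eq n m x

theorem convexOn_const_mul {s : Set ℝ} {f : ℝ → ℝ} {c : ℝ} (hc : 0 ≤ c) (h : ConvexOn ℝ s f) :
    ConvexOn ℝ s (fun x => c * f x) := by
  have := h.smul hc
  simpa [Pi.smul_def, smul_eq_mul] using this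

theorem strictMonoOn_const_mul {s : Set ℝ} {f : ℝ → ℝ} {c : ℝ} (hc : 0 < c)
    (h : StrictMonoOn f s) : StrictMonoOn (fun x => c * f x) s := by
  intro x hx y hy hxy
  exact mul_lt_mul_of_pos_left (h hx hy hxy) hc

theorem knot_of_knotS {n m : ℕ} {β a : ℝ} (h : KnotS n m β a) :
    IsKnot (m + 1) n β (K n m * a) := by
  have hK := K_pos n m
  refine ⟨⟨h.mem.1, h.mem.2⟩, ?_, ?_, mul_pos hK h.pos, ?_, ?_⟩
  · rw [sfun_mul]; exact convexOn_const_mul hK.le h.conv
  · rw [sfun_mul]; exact strictMonoOn_const_mul hK h.mono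
  · have e : ∀ x, sfun (m + 1) n x - (sfun (m + 1) n β + K n m * a * (x - β)) =
        K n m * (S n m x - (S n m β + a * (x - β))) := by
      intro x; rw [sfun_mul]; ring
    simp only [e]
    rw [intervalIntegral.integral_const_mul, h.mom0, mul_zero]
  · have e : ∀ x, (sfun (m + 1) n x - (sfun (m + 1) n β + K n m * a * (x - β))) * (x - β) =
        K n m * ((S n m x - (S n m β + a * (x - β))) * (x - β)) := by
      intro x; rw [sfun_mul]; ring
    simp only [e]
    rw [intervalIntegral.integral_const_mul, h.mom1, mul_zero]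

theorem knotS_of_knot {n m : ℕ} {β a : ℝ} (h : IsKnot (m + 1) n β a) :
    KnotS n m β (a / K n m) := by
  have hK := K_pos n m
  have hKi : 0 < (K n m)⁻¹ := inv_pos.2 hK
  have es : S n m = fun x => (K n m)⁻¹ * sfun (m + 1) n x := by
    funext x; rw [sfun_mul]; field_simp
  refine ⟨⟨h.mem.1, h.mem.2⟩, ?_, ?_, div_pos h.pos hK, ?_, ?_⟩
  · rw [es]; exact convexOn_const_mul hKi.le h.conv
  · rw [es]; exact strictMonoOn_const_mul hKi h.mono
  · have e : ∀ x, S n m x - (S n m β + a / K n m * (x - β)) =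
        (K n m)⁻¹ * (sfun (m + 1) n x - (sfun (m + 1) n β + a * (x - β))) := by
      intro x; rw [sfun_mul]; field_simp
    simp only [e]
    rw [intervalIntegral.integral_const_mul, h.mom0, mul_zero]
  · have e : ∀ x, (S n m x - (S n m β + a / K n m * (x - β))) * (x - β) =
        (K n m)⁻¹ * ((sfun (m + 1) n x - (sfun (m + 1) n β + a * (x - β))) * (x - β)) := by
      intro x; rw [sfun_mul]; field_simp
    simp only [e]
    rw [intervalIntegral.integral_const_mul, h.mom1, mul_zero]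

theorem value_V (n m : ℕ) (β a : ℝ) : K n m / 2 * Real.sqrt (2 * V n m β (a / K n m)) =
    Real.sqrt (1 / 2 * ((∫ x in (1 / 2 : ℝ)..β, sfun (m + 1) n x ^ 2) +
      ∫ x in β..1, (sfun (m + 1) n β + a * (x - β)) ^ 2)) := by
  have hK := K_pos n m
  have e1 : ∀ x, sfun (m + 1) n x ^ 2 = K n m ^ 2 * S n m x ^ 2 := by
    intro x; rw [sfun_mul]; ring
  have e3 : ∀ x, (sfun (m + 1) n β + a * (x - β)) ^ 2 =
      K n m ^ 2 * (S n m β + a / K n m * (x - β)) ^ 2 := by
    intro x; rw [sfun_mul]; field_simp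
  simp only [e1, e3]
  rw [intervalIntegral.integral_const_mul, intervalIntegral.integral_const_mul]
  have e2 : 1 / 2 * (K n m ^ 2 * (∫ x in (1 / 2 : ℝ)..β, S n m x ^ 2) +
      K n m ^ 2 * ∫ x in β..1, (S n m β + a / K n m * (x - β)) ^ 2) =
      (K n m / 2) ^ 2 * (2 * V n m β (a / K n m)) := by
    unfold V; ring
  rw [e2, Real.sqrt_mul (sq_nonneg (K n m / 2)) (2 * V n m β (a / K n m)),
    Real.sqrt_sq (by positivity)]

theorem isLUB_knot (hU : S_KUP) (hL : S_KLO) {n m : ℕ} (hn : 1 ≤ n) (hm : 1 ≤ m) {β a : ℝ}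
    (h : KnotS n m β a) :
    IsLUB (stdMeansU (m + 1) n) (K n m / 2 * Real.sqrt (2 * V n m β a)) := by
  have hK := K_pos n m
  constructor
  · rintro r ⟨μ, hμ, rfl⟩
    rw [recMean_sub n m hm hμ.sym, div_le_iff₀ hμ.sym.pos]
    have h1 := hU n m hn hm β a h μ hμ
    calc K n m / 2 * ∫ t, (t - mean μ) * S n m (cdf μ t) ∂μ
        ≤ K n m / 2 * (sd μ * Real.sqrt (2 * V n m β a)) :=
          mul_le_mul_of_nonneg_left h1 (by positivity)
      _ = _ := by ring
  · intro b hb
    exact hb (hL n m hn hm β a h)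

theorem fin : S_ZERO → S_UNIF → S_EX → S_KUP → S_KLO → S_M1 → S_FIN := by
  intro hZ hU hE hKU hKL hM k n hk hn
  obtain ⟨m, rfl⟩ : ∃ m, k = m + 1 := ⟨k - 1, by omega⟩
  have hm : 1 ≤ m := by omega
  have hK := K_pos n m
  have hM1 := hM n m hm
  have hkey := K_mul_integral_half n m hm
  have ek : (((m + 1 : ℕ) : ℝ) / (((m + 1 : ℕ) : ℝ) + 1)) = ((m : ℝ) + 1) / (m + 2) := by
    push_cast; congr 1; ring
  rw [Nat.add_sub_cancel, ek]
  obtain ⟨q, hq⟩ : ∃ q : ℝ, q = (((m : ℝ) + 1) / (m + 2)) ^ (n + 1) := ⟨_, rfl⟩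
  rw [← hq] at hM1 ⊢
  rw [← hkey]
  refine ⟨fun h => ?_, fun h => ⟨fun h2 => ?_, fun h2 => ?_⟩⟩
  · apply hZ n m hn hm
    by_contra hcon
    push Not at hcon
    have := mul_pos hK hcon
    linarith
  · have hN1 : 0 < N1 n m := by
      by_contra hcon
      push Not at hcon
      have := mul_nonpos_of_nonneg_of_nonpos hK.le hcon
      linarith
    have h3 : 3 * N1 n m ≤ N0 n m := by
      have h4 : K n m * (3 * N1 n m) ≤ K n m * N0 n m := by
        calc K n m * (3 * N1 n m) = 3 * (K n m * N1 n m) := by ring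
          _ = 3 * (1 / 2 - q) := by rw [hM1]
          _ ≤ _ := h2
      exact le_of_mul_le_mul_left h4 hK
    have h5 := hU n m hn hm hN1 h3
    have h6 : K n m * N1 n m * Real.sqrt 12 = Real.sqrt 3 * (1 - 2 * q) := by
      rw [hM1, show (12 : ℝ) = 2 ^ 2 * 3 by norm_num, Real.sqrt_mul (by norm_num),
        Real.sqrt_sq (by norm_num)]
      ring
    rw [← h6]
    exact h5
  · have hN1 : 0 < N1 n m := by
      by_contra hcon
      push Not at hcon
      have := mul_nonpos_of_nonneg_of_nonpos hK.le hcon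
      linarith
    have h3 : N0 n m < 3 * N1 n m := by
      have h4 : K n m * N0 n m < K n m * (3 * N1 n m) := by
        calc K n m * N0 n m < 3 * (1 / 2 - q) := h2
          _ = 3 * (K n m * N1 n m) := by rw [hM1]
          _ = _ := by ring
      exact lt_of_mul_lt_mul_left h4 hK.le
    obtain ⟨β, a, hk⟩ := hE n m hn hm hN1 h3
    refine ⟨⟨β, K n m * a, knot_of_knotS hk⟩, fun β' a' h' => ?_⟩
    rw [← value_V]
    exact isLUB_knot hKU hKL hn hm (knotS_of_knot h')

end Pool.Agent.T9h72.KU
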