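import Mathlib
import Pool.Agent.T9h72.KU.Fin
import Pool.Agent.T9h72.KU.Spec2

set_option autoImplicit false

namespace Pool.Agent.T9h72.KU

open MeasureTheory ProbabilityTheory Set Filter Topology Pool.Agent.R190.KR
open scoped ENNReal

/-- the uniform law attains the bound -/
def S_UNIFM : Prop := ∀ n m : ℕ, 1 ≤ n → 1 ≤ m → 0 < N1 n m → 3 * N1 n m ≤ N0 n m →
    K n m * N1 n m * Real.sqrt 12 ∈ stdMeansU (m + 1) n

theorem isGreatest_knot (hU : S_KUP) (hL : S_KLO) {n m : ℕ} (hn : 1 ≤ n) (hm : 1 ≤ m) {β a : ℝ}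
    (h : KnotS n m β a) :
    IsGreatest (stdMeansU (m + 1) n) (K n m / 2 * Real.sqrt (2 * V n m β a)) :=
  ⟨hL n m hn hm β a h, (isLUB_knot hU hL hn hm h).1⟩

/-- The main theorem for `k ≥ 2` with uniqueness of the knot and attainment. -/
theorem fin2 (hZ : S_ZERO) (hU : S_UNIF) (hUM : S_UNIFM) (hE : S_EX) (hKU : S_KUP) (hKL : S_KLO)
    (hM : S_M1) (hQ : S_UNIQ) : ∀ k n : ℕ, 2 ≤ k → 1 ≤ n →
    (1 ≤ 2 * ((k : ℝ) / (k + 1)) ^ (n + 1) → IsLUB (stdMeansU k n) 0) ∧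
    (2 * ((k : ℝ) / (k + 1)) ^ (n + 1) < 1 →
      (3 * (1 / 2 - ((k : ℝ) / (k + 1)) ^ (n + 1)) ≤
          (∑ j ∈ Finset.range (n + 1), (k * Real.log 2) ^ j / j.factorial) / 2 ^ (k - 1) - 1 →
        IsGreatest (stdMeansU k n) (Real.sqrt 3 * (1 - 2 * ((k : ℝ) / (k + 1)) ^ (n + 1)))) ∧
      ((∑ j ∈ Finset.range (n + 1), (k * Real.log 2) ^ j / j.factorial) / 2 ^ (k - 1) - 1 <
          3 * (1 / 2 - ((k : ℝ) / (k + 1)) ^ (n + 1)) →
        ∃ β a : ℝ, IsKnot k n β a ∧ (∀ β' a' : ℝ, IsKnot k n β' a' → β' = β ∧ a' = a) ∧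
          IsGreatest (stdMeansU k n)
            (Real.sqrt (1 / 2 * ((∫ x in (1 / 2 : ℝ)..β, sfun k n x ^ 2) +
              ∫ x in β..1, (sfun k n β + a * (x - β)) ^ 2))))) := by
  intro k n hk hn
  obtain ⟨m, rfl⟩ : ∃ m, k = m + 1 := ⟨k - 1, by omega⟩
  have hm : 1 ≤ m := by omega
  have hK := K_pos n m
  have hM1 := hM n m hm
  have hkey := K_mul_integral_half n m hm
  have ek : (((m + 1 : ℕ) : ℝ) / (((m + 1 : ℕ) : ℝ) + 1)) = ((m : ℝ) + 1) / (m + 2) := by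
    push_cast; congr 1; ring
  rw [Nat.add_sub_cancel, ek]
  obtain ⟨q, hq⟩ : ∃ q : ℝ, q = (((m : ℝ) + 1) / (m + 2)) ^ (n + 1) := ⟨_, rfl⟩
  rw [← hq] at hM1 ⊢
  rw [← hkey]
  refine ⟨fun h => ?_, fun h => ⟨fun h2 => ?_, fun h2 => ?_⟩⟩
  · apply hZ n m hn hm
    by_contra hcon
    push Not at hcon
    have := mul_pos hK hcon
    linarith
  · have hN1 : 0 < N1 n m := by
      by_contra hcon
      push Not at hcon
      have := mul_nonpos_of_nonneg_of_nonpos hK.le hcon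
      linarith
    have h3 : 3 * N1 n m ≤ N0 n m := by
      have h4 : K n m * (3 * N1 n m) ≤ K n m * N0 n m := by
        calc K n m * (3 * N1 n m) = 3 * (K n m * N1 n m) := by ring
          _ = 3 * (1 / 2 - q) := by rw [hM1]
          _ ≤ _ := h2
      exact le_of_mul_le_mul_left h4 hK
    have h6 : K n m * N1 n m * Real.sqrt 12 = Real.sqrt 3 * (1 - 2 * q) := by
      rw [hM1, show (12 : ℝ) = 2 ^ 2 * 3 by norm_num, Real.sqrt_mul (by norm_num),
        Real.sqrt_sq (by norm_num)]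
      ring
    rw [← h6]
    exact ⟨hUM n m hn hm hN1 h3, (hU n m hn hm hN1 h3).1⟩
  · have hN1 : 0 < N1 n m := by
      by_contra hcon
      push Not at hcon
      have := mul_nonpos_of_nonneg_of_nonpos hK.le hcon
      linarith
    have h3 : N0 n m < 3 * N1 n m := by
      have h4 : K n m * N0 n m < K n m * (3 * N1 n m) := by
        calc K n m * N0 n m < 3 * (1 / 2 - q) := h2
          _ = 3 * (K n m * N1 n m) := by rw [hM1]
          _ = _ := by ring
      exact lt_of_mul_lt_mul_left h4 hK.le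
    obtain ⟨β, a, hk⟩ := hE n m hn hm hN1 h3
    refine ⟨β, K n m * a, knot_of_knotS hk, fun β' a' h' => ?_, ?_⟩
    · obtain ⟨e1, e2⟩ := hQ n m hn hm β' (a' / K n m) β a (knotS_of_knot h') hk
      refine ⟨e1, ?_⟩
      rw [← e2]; field_simp
    · rw [← value_V]
      have e : K n m * a / K n m = a := by field_simp
      rw [e]
      exact isGreatest_knot hKU hKL hn hm hk

end Pool.Agent.T9h72.KU
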